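import Pool.Agent.TH847.LM.Inter

/-! Many primes in many residue classes modulo every modulus. -/

set_option autoImplicit false

namespace Pool.Agent.Y977.LW
open Finset Filter Pool.Agent.W301.SS Pool.Agent.H807R2.Dav Pool.Agent.TH847.LM

/-- the total mass of the function `ff` -/
lemma sum_ff {m : ℕ} (hm : 1 ≤ m) (J : ℕ) : ∑ a ∈ range m, ff m J a = Th m J := by
  have hφ : 0 < Nat.totient m := Nat.totient_pos.2 hm
  have hφr : (Nat.totient m : ℝ) ≠ 0 := by exact_mod_cast hφ.ne'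
  have h1 := FF_zero hm J
  have h2 : ∀ n ∈ range m, ((FF m J n : ℝ) : ℂ) * ee ((n : ℝ) * (((0 : ℕ) : ℝ) / m)) =
      ((FF m J n : ℝ) : ℂ) := by
    intro n _
    simp [ee_zero]
  rw [sum_congr rfl h2] at h1
  have h3 : ∑ n ∈ range m, FF m J n = 0 := by exact_mod_cast h1
  unfold FF at h3
  rw [sum_sub_distrib, ← mul_sum] at h3
  have h4 : ∑ n ∈ range m, (if n.Coprime m then (1 : ℝ) else 0) = Nat.totient m := by
    rw [← sum_filter, sum_const, nsmul_eq_mul, mul_one]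
    congr 1
    rw [Nat.totient_eq_card_coprime]
    congr 1
    apply filter_congr
    intro n _
    exact Nat.coprime_comm
  rw [h4, div_mul_cancel₀ _ hφr] at h3
  linarith

open Classical in
/-- the inequality for the classes with many primes -/
theorem core2 {m J D : ℕ} (hm : 2 ≤ m) (hJ : 1 ≤ J) (hD : 3 ≤ D) (hDm : D ≤ m)
    (hφ : (m : ℝ) / Nat.totient m ≤ Real.log D)
    {W : ℝ} (hW : 2 ≤ W)
    (hV : (3 * (D : ℝ) ^ 4 + m / J * (1 + 4 * Real.log D) ^ 16) * Real.log ((J + 1) * m : ℕ) ^ 2 ≤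
      m / (4 * W ^ 3))
    {δ : ℝ} (hTh : (1 - δ) * ((J : ℝ) * m) ≤ Th m J)
    (hlog : (1 / 4 - δ) * Real.log ((J + 1) * m : ℕ) ≤ Real.log D)
    {η : ℝ} (hη : 0 ≤ η) (hx : δ + 2 * η + 1 / (2 * W) ≤ 1) :
      (1 / 4 - δ) * (1 - (δ + 2 * η + 1 / (2 * W))) * (Nat.totient m : ℝ) ≤
        (((range m).filter (fun a => 2 * η * J ≤ ff m J a)).card : ℝ) := by
  have hm0 : 0 < m := by omega
  have hmr : (0 : ℝ) < m := by exact_mod_cast hm0
  have hJr : (0 : ℝ) < J := by exact_mod_cast hJ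
  have hDr : (3 : ℝ) ≤ D := by exact_mod_cast hD
  have hW0 : 0 < W := by linarith
  have hφ0 : 0 < Nat.totient m := Nat.totient_pos.2 hm0
  have hφr : (0 : ℝ) < Nat.totient m := by exact_mod_cast hφ0
  have hlD : 1 ≤ Real.log D := by
    rw [Real.le_log_iff_exp_le (by linarith)]
    linarith [Real.exp_one_lt_d9]
  set N : ℕ := (J + 1) * m with hN
  have hmN : m ≤ N := Nat.le_mul_of_pos_left m (by omega)
  have hDN : Real.log D ≤ Real.log N := by
    apply Real.log_le_log (by linarith)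
    exact_mod_cast hDm.trans hmN
  have hlN : 1 ≤ Real.log N := hlD.trans hDN
  obtain ⟨l, l1, l2, _, _, l5, l6, l7⟩ := Pool.Agent.H376R2.TT.sel_weights_q m (by omega) D (by omega)
  have emv : mv l D = ∑ d ∈ Icc 1 D, ∑ e ∈ Icc 1 D, l d * l e / (Nat.lcm d e : ℝ) := by
    unfold mv DD
    rw [sum_product]
  rw [← emv] at l6 l7
  have hmv1 : mv l D ≤ 1 := by
    refine l7.trans ?_
    rw [div_le_one (by linarith)]
    exact hφ
  have hvar := varianceM l l2 D (by omega) l6 hmv1 m J m 0 hJ l5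
  set V : ℝ := 3 * (D : ℝ) ^ 4 + m / J * (1 + 4 * Real.log D) ^ 16 with hVdef
  have hV0 : 0 ≤ V := by
    rw [hVdef]
    have : 0 ≤ 1 + 4 * Real.log D := by linarith
    positivity
  set G : Finset ℕ := (range m).filter (fun a => 2 * η * J ≤ ff m J a) with hG
  set nG : ℝ := (G.card : ℝ) with hnG
  have hnG0 : 0 ≤ nG := Nat.cast_nonneg _
  have hGA : G ⊆ range m := filter_subset _ _
  have h4 := key l1 hm0 hJ (by omega : 1 ≤ D) hDm (A := range m) (fun a ha => mem_range.1 ha) 0 V hvar G hGA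
  simp only [add_zero, card_range] at h4
  rw [← hN, ← hnG] at h4
  -- the classes with few primes
  have h3 : Th m J ≤ ∑ a ∈ G, ff m J a + 2 * η * (J * m) := by
    rw [← sum_ff (by omega : 1 ≤ m) J, ← sum_filter_add_sum_filter_not (range m)
      (fun a => 2 * η * (J : ℝ) ≤ ff m J a)]
    rw [← hG]
    have e1 : ∑ a ∈ (range m).filter (fun a => ¬ 2 * η * (J : ℝ) ≤ ff m J a), ff m J a ≤
        ∑ _a ∈ (range m).filter (fun a => ¬ 2 * η * (J : ℝ) ≤ ff m J a), 2 * η * (J : ℝ) := by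
      apply sum_le_sum
      intro a ha
      exact (not_le.1 (mem_filter.1 ha).2).le
    have e2 : ∑ _a ∈ (range m).filter (fun a => ¬ 2 * η * (J : ℝ) ≤ ff m J a), 2 * η * (J : ℝ) ≤
        ∑ _a ∈ range m, 2 * η * (J : ℝ) :=
      sum_le_sum_of_subset_of_nonneg (filter_subset _ _) fun _ _ _ => by positivity
    have e3 : ∑ _a ∈ range m, 2 * η * (J : ℝ) = 2 * η * (J * m) := by
      rw [sum_const, card_range, nsmul_eq_mul]
      ring
    linarith
  -- the square root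
  have h6 : Real.log N * √((m : ℝ) * V) ≤ m / (2 * W) := by
    have a1 : Real.log N * √((m : ℝ) * V) = √((m : ℝ) * (V * Real.log N ^ 2)) := by
      have : (m : ℝ) * (V * Real.log N ^ 2) = Real.log N ^ 2 * ((m : ℝ) * V) := by ring
      rw [this, Real.sqrt_mul (sq_nonneg (Real.log (N : ℝ))) ((m : ℝ) * V),
        Real.sqrt_sq (by linarith)]
    rw [a1]
    apply Real.sqrt_le_iff.2 ⟨by positivity, ?_⟩
    have a2 : (m : ℝ) / (4 * W ^ 3) ≤ m / (4 * W ^ 2) := by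
      apply div_le_div_of_nonneg_left hmr.le (by positivity)
      have : W ^ 2 ≤ W ^ 3 := pow_le_pow_right₀ (by linarith) (by norm_num)
      linarith
    calc (m : ℝ) * (V * Real.log N ^ 2) ≤ m * (m / (4 * W ^ 3)) := by gcongr
      _ ≤ m * (m / (4 * W ^ 2)) := by gcongr
      _ = _ := by field_simp; ring
  -- the main inequality, divided by `J`
  have h7 : (1 - (δ + 2 * η + 1 / (2 * W))) * m ≤
      Real.log N / Real.log D * ((m : ℝ) / Nat.totient m) * nG := by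
    have b2 : Real.log N * (J * (nG * mv l D + √((m : ℝ) * V))) ≤
        J * (Real.log N / Real.log D * ((m : ℝ) / Nat.totient m) * nG + m / (2 * W)) := by
      calc _ = J * (nG * (Real.log N * mv l D) + Real.log N * √((m : ℝ) * V)) := by ring
        _ ≤ J * (nG * (Real.log N * (((m : ℝ) / Nat.totient m) / Real.log D)) + m / (2 * W)) := by
          gcongr
        _ = _ := by ring
    have b4 : (J : ℝ) * ((1 - (δ + 2 * η + 1 / (2 * W))) * m) ≤
        J * (Real.log N / Real.log D * ((m : ℝ) / Nat.totient m) * nG) := by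
      have e : (J : ℝ) * ((1 - (δ + 2 * η + 1 / (2 * W))) * m) =
          (1 - δ) * ((J : ℝ) * m) - 2 * η * (J * m) - J * (m / (2 * W)) := by ring
      have e2 : (J : ℝ) * (Real.log N / Real.log D * ((m : ℝ) / Nat.totient m) * nG + m / (2 * W)) =
          J * (Real.log N / Real.log D * ((m : ℝ) / Nat.totient m) * nG) + J * (m / (2 * W)) := by ring
      rw [e]
      rw [e2] at b2
      linarith [b2, h4, h3, hTh]
    exact le_of_mul_le_mul_left b4 hJr
  have h8 : 0 < Real.log D / Real.log N * (Nat.totient m / m) := by positivity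
  have h9 := mul_le_mul_of_nonneg_left h7 h8.le
  have h10 : Real.log D / Real.log N * (Nat.totient m / m) *
      (Real.log N / Real.log D * ((m : ℝ) / Nat.totient m) * nG) = nG := by
    have : Real.log D ≠ 0 := by linarith
    have : Real.log N ≠ 0 := by linarith
    field_simp
  rw [h10] at h9
  refine le_trans ?_ h9
  have h11 : 1 / 4 - δ ≤ Real.log D / Real.log N := by
    rw [le_div_iff₀ (by linarith)]; exact hlog
  have h15 : Real.log D / Real.log N * (Nat.totient m / m) * ((1 - (δ + 2 * η + 1 / (2 * W))) * m) =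
      Real.log D / Real.log N * (1 - (δ + 2 * η + 1 / (2 * W))) * Nat.totient m := by
    field_simp
  rw [h15]
  have h16 : 0 ≤ 1 - (δ + 2 * η + 1 / (2 * W)) := by linarith
  gcongr

open Classical in
theorem analysis2 (δ : ℝ) (hδ : 0 < δ) (hδ1 : δ ≤ 1 / 8) : ∀ᶠ m : ℕ in atTop, ∀ (J : ℕ) (W : ℝ), 2 ≤ W →
    (Real.log m ^ 10 * W ^ 3) ^ 2 ≤ J → (J : ℝ) ≤ (m : ℝ) ^ (δ / 2) →
    ∀ η : ℝ, 0 ≤ η → δ + 2 * η + 1 / (2 * W) ≤ 1 →
      (1 / 4 - δ) * (1 - (δ + 2 * η + 1 / (2 * W))) * (Nat.totient m : ℝ) ≤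
        (((range m).filter (fun a => 2 * η * J ≤ ff m J a)).card : ℝ) := by
  obtain ⟨N₀, hN₀⟩ := eventually_atTop.1 (pnt_unif 1)
  filter_upwards [sizes δ hδ hδ1, ev_L (4 / δ + 2048), eventually_ge_atTop 16,
    eventually_ge_atTop N₀, ev_log 0 3 ((1 - δ) / 4) (by linarith), phi_ev (1 / 16) (by norm_num),
    ev_log 2 96 (δ / 2) (by positivity)] with m hs h1 hm16 hmN₀ h3 hphi h96 J W hW hJ1 hJ2 η hη hx
  obtain ⟨hJ, hW3m, hN2, hLN, hLN2⟩ := hs J W hW hJ1 hJ2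
  have hmr : (16 : ℝ) ≤ m := by exact_mod_cast hm16
  have hm0 : (0 : ℝ) < m := by linarith
  have hm1 : (1 : ℝ) ≤ m := by linarith
  set ℓ := Real.log m with hℓ
  have hd1 : 0 < 4 / δ := by positivity
  have hℓ4 : 2048 ≤ ℓ := by linarith
  have hℓ1 : 1 ≤ ℓ := by linarith
  have hℓ0 : 0 < ℓ := by linarith
  have hW0 : 0 < W := by linarith
  have hW31 : 1 ≤ W ^ 3 := one_le_pow₀ (by linarith)
  have hW30 : 0 < W ^ 3 := by positivity
  have hJr : (1 : ℝ) ≤ J := by exact_mod_cast hJ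
  have hJ0 : (0 : ℝ) < J := by linarith
  rw [pow_zero, mul_one] at h3
  set D : ℕ := ⌊(m : ℝ) ^ ((1 - δ) / 4)⌋₊ with hD
  have hDle : (D : ℝ) ≤ (m : ℝ) ^ ((1 - δ) / 4) := Nat.floor_le (by positivity)
  have hD3 : 3 ≤ D := Nat.le_floor (by exact_mod_cast h3)
  have hDr : (3 : ℝ) ≤ D := by exact_mod_cast hD3
  have hDge : (m : ℝ) ^ ((1 - δ) / 4) ≤ 2 * D := by
    have := Nat.lt_floor_add_one ((m : ℝ) ^ ((1 - δ) / 4))
    rw [← hD] at this
    linarith
  have hDm : D ≤ m := by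
    have : (D : ℝ) ≤ m := by
      refine hDle.trans ?_
      calc (m : ℝ) ^ ((1 - δ) / 4) ≤ (m : ℝ) ^ (1 : ℝ) :=
            Real.rpow_le_rpow_of_exponent_le hm1 (by linarith)
        _ = m := Real.rpow_one _
    exact_mod_cast this
  have hlogD : (1 - 2 * δ) / 4 * ℓ ≤ Real.log D := by
    have a1 := Real.log_le_log (by positivity) hDge
    rw [Real.log_rpow hm0, Real.log_mul (by norm_num) (by linarith)] at a1
    have a2 := Real.log_two_lt_d9
    have a3 : 1 ≤ δ * ℓ / 4 := by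
      have : 4 / δ ≤ ℓ := by linarith
      rw [div_le_iff₀ hδ] at this
      linarith
    nlinarith
  have hlogD2 : 1 + 4 * Real.log D ≤ 2 * ℓ := by
    have a1 := Real.log_le_log (by linarith) hDle
    rw [Real.log_rpow hm0] at a1
    nlinarith
  have hlogD0 : 0 ≤ 1 + 4 * Real.log D := by
    have := Real.log_nonneg (show (1 : ℝ) ≤ D by linarith)
    linarith
  have hD4 : (D : ℝ) ^ 4 ≤ (m : ℝ) ^ (1 - δ) := by
    calc (D : ℝ) ^ 4 ≤ ((m : ℝ) ^ ((1 - δ) / 4)) ^ 4 := pow_le_pow_left₀ (by positivity) hDle 4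
      _ = _ := by
        rw [← Real.rpow_natCast, ← Real.rpow_mul hm0.le]
        congr 1; push_cast; ring
  set N : ℕ := (J + 1) * m with hNdef
  have hN : (N : ℝ) = (J + 1) * m := by rw [hNdef]; push_cast; ring
  have hN0 : (0 : ℝ) < N := by rw [hN]; positivity
  have hmN : m ≤ N := Nat.le_mul_of_pos_left m (by omega)
  have hLN1 : Real.log N ≤ 2 * ℓ := by nlinarith
  have hLN0 : 0 < Real.log N := by linarith
  refine core2 (δ := δ) (by omega) hJ hD3 hDm ?_ hW ?_ ?_ ?_ hη hx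
  · -- the totient function
    refine hphi.trans ?_
    refine le_trans ?_ hlogD
    nlinarith
  · -- the variance
    have a1 : (1 + 4 * Real.log D) ^ 16 ≤ (2 * ℓ) ^ 16 := pow_le_pow_left₀ hlogD0 hlogD2 16
    have a2 : Real.log N ^ 2 ≤ (2 * ℓ) ^ 2 := pow_le_pow_left₀ hLN0.le hLN1 2
    have hP0 : 0 < (ℓ ^ 10 * W ^ 3) ^ 2 := by positivity
    have a3 : (m : ℝ) / J ≤ m / (ℓ ^ 10 * W ^ 3) ^ 2 := by gcongr
    have a4 : 96 * ℓ ^ 2 * W ^ 3 ≤ (m : ℝ) ^ δ := by
      calc 96 * ℓ ^ 2 * W ^ 3 ≤ (m : ℝ) ^ (δ / 2) * (m : ℝ) ^ (δ / 4) := by gcongr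
        _ = (m : ℝ) ^ (δ / 2 + δ / 4) := (Real.rpow_add hm0 _ _).symm
        _ ≤ (m : ℝ) ^ δ := Real.rpow_le_rpow_of_exponent_le hm1 (by linarith)
    have a5 : 12 * ℓ ^ 2 * (m : ℝ) ^ (1 - δ) ≤ m / (8 * W ^ 3) := by
      rw [le_div_iff₀ (by positivity)]
      have e : (m : ℝ) = (m : ℝ) ^ (1 - δ) * (m : ℝ) ^ δ := by
        rw [← Real.rpow_add hm0]; simp
      calc 12 * ℓ ^ 2 * (m : ℝ) ^ (1 - δ) * (8 * W ^ 3) = (m : ℝ) ^ (1 - δ) * (96 * ℓ ^ 2 * W ^ 3) := by ring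
        _ ≤ (m : ℝ) ^ (1 - δ) * (m : ℝ) ^ δ := by gcongr
        _ = m := e.symm
    have a6 : (m : ℝ) / (ℓ ^ 10 * W ^ 3) ^ 2 * (2 * ℓ) ^ 16 * (2 * ℓ) ^ 2 ≤ m / (8 * W ^ 3) := by
      have e : (m : ℝ) / (ℓ ^ 10 * W ^ 3) ^ 2 * (2 * ℓ) ^ 16 * (2 * ℓ) ^ 2 =
          (2 ^ 18 / (ℓ ^ 2 * W ^ 3)) * (m / W ^ 3) := by field_simp
      have e2 : (m : ℝ) / (8 * W ^ 3) = 1 / 8 * (m / W ^ 3) := by field_simp
      rw [e, e2]
      apply mul_le_mul_of_nonneg_right _ (by positivity)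
      rw [div_le_div_iff₀ (by positivity) (by norm_num)]
      have : (2 : ℝ) ^ 21 ≤ ℓ ^ 2 := by nlinarith
      calc (2 : ℝ) ^ 18 * 8 = 2 ^ 21 * 1 := by norm_num
        _ ≤ ℓ ^ 2 * W ^ 3 := by gcongr
        _ = _ := by ring
    calc (3 * (D : ℝ) ^ 4 + m / J * (1 + 4 * Real.log D) ^ 16) * Real.log N ^ 2 ≤
          (3 * (m : ℝ) ^ (1 - δ) + m / (ℓ ^ 10 * W ^ 3) ^ 2 * (2 * ℓ) ^ 16) * (2 * ℓ) ^ 2 := by gcongr
      _ = 12 * ℓ ^ 2 * (m : ℝ) ^ (1 - δ) + m / (ℓ ^ 10 * W ^ 3) ^ 2 * (2 * ℓ) ^ 16 * (2 * ℓ) ^ 2 := by ring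
      _ ≤ m / (8 * W ^ 3) + m / (8 * W ^ 3) := add_le_add a5 a6
      _ = _ := by ring
  · -- the total mass
    have a1 := hN₀ N (hmN₀.trans hmN) N (by omega)
    have a2 := hN₀ N (hmN₀.trans hmN) m (by omega)
    rw [pow_one] at a1 a2
    have a3 : (N : ℝ) / Real.log N ≤ δ / 2 * (J * m) := by
      rw [div_le_iff₀ hLN0]
      have b1 : 4 ≤ δ * Real.log N := by
        have : 4 / δ ≤ Real.log N := by linarith
        rw [div_le_iff₀ hδ] at this
        linarith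
      calc (N : ℝ) ≤ 2 * (J * m) := hN2
        _ = 1 / 2 * 4 * (J * m) := by ring
        _ ≤ 1 / 2 * (δ * Real.log N) * (J * m) := by gcongr
        _ = _ := by ring
    unfold Th
    rw [← hNdef]
    rw [abs_le] at a1 a2
    have e : (N : ℝ) = J * m + m := by rw [hN]; ring
    linarith [a1.1, a2.2]
  · -- the logarithms
    calc (1 / 4 - δ) * Real.log N ≤ (1 / 4 - δ) * ((1 + δ) * ℓ) := by
          apply mul_le_mul_of_nonneg_left hLN (by linarith)
      _ ≤ (1 - 2 * δ) / 4 * ℓ := by nlinarith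
      _ ≤ _ := hlogD

open Classical in
/-- a class in which `ff` is large contains many primes -/
lemma many_of_ff {m J : ℕ} (hm : 2 ≤ m) {c : ℕ} (hc : c ∈ Ioc 0 m) {η : ℝ}
    (hL : Real.log ((J + 1) * m : ℕ) ≤ 2 * Real.log m) (h : 2 * η * J ≤ ff m J c) :
    η * J / Real.log m ≤ (((Icc 1 J).filter (fun t : ℕ => (c + m * t).Prime)).card : ℝ) := by
  have hl : 0 < Real.log m := Real.log_pos (by exact_mod_cast (by omega : 1 < m))
  rw [ff_eq hc] at h
  rw [mem_Ioc] at hc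
  rw [div_le_iff₀ hl]
  have h1 : ∑ h ∈ Ioc 0 J, om (c + h * m) ≤
      ∑ h ∈ Ioc 0 J, (if (c + m * h).Prime then 2 * Real.log m else 0) := by
    apply sum_le_sum
    intro h hh
    rw [mem_Ioc] at hh
    have e : c + h * m = c + m * h := by ring
    rw [e]
    unfold om
    split_ifs with hp
    · refine le_trans ?_ hL
      apply Real.log_le_log
      · exact_mod_cast hp.pos
      · have h1 : m * h ≤ m * J := Nat.mul_le_mul_left m hh.2
        have h2 : c + m * h ≤ (J + 1) * m := by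
          have e1 : (J + 1) * m = m * J + m := by ring
          rw [e1]
          linarith [hc.2]
        exact_mod_cast h2
    · exact le_rfl
  have h2 : ∑ h ∈ Ioc 0 J, (if (c + m * h).Prime then 2 * Real.log m else 0) =
      (((Icc 1 J).filter (fun t : ℕ => (c + m * t).Prime)).card : ℝ) * (2 * Real.log m) := by
    rw [← sum_filter, sum_const, nsmul_eq_mul]
    rfl
  rw [h2] at h1
  linarith

open Classical in
theorem t_MANY : ∀ ε : ℝ, 0 < ε → ∃ η κ : ℝ, 0 < η ∧ 0 < κ ∧ ∃ B m₀ : ℕ, ∀ m J : ℕ, m₀ ≤ m →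
    Real.log m ^ B ≤ J → (J : ℝ) ≤ (m : ℝ) ^ κ →
    (1 / 4 - ε) * (Nat.totient m : ℝ) ≤ (((Icc 1 m).filter (fun c : ℕ =>
      η * J / Real.log m ≤ (((Icc 1 J).filter (fun t : ℕ => (c + m * t).Prime)).card : ℝ))).card : ℝ) := by
  intro ε hε
  obtain ⟨δ, hδ, hδ8, hδε⟩ : ∃ δ : ℝ, 0 < δ ∧ δ ≤ 1 / 8 ∧ 2 * δ ≤ ε :=
    ⟨min (ε / 2) (1 / 8), by positivity, min_le_right _ _, by
      have := min_le_left (ε / 2) (1 / 8 : ℝ)
      linarith⟩
  refine ⟨δ / 2, δ / 2, by positivity, by positivity, 21, ?_⟩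
  obtain ⟨N₁, hN₁⟩ := eventually_atTop.1 (((analysis2 δ hδ hδ8).and (sizes δ hδ hδ8)).and
    ((ev_L ((1 / δ) ^ 6 + 1)).and (eventually_ge_atTop 2)))
  refine ⟨N₁, fun m J hm hB hJ => ?_⟩
  obtain ⟨⟨h1, h2⟩, h3, hm2⟩ := hN₁ m hm
  have hW : 2 ≤ 1 / δ := by
    rw [le_div_iff₀ hδ]; linarith
  have hl1 : 1 ≤ Real.log m := by
    have : 0 < (1 / δ) ^ 6 := by positivity
    linarith
  have hJ1 : (Real.log m ^ 10 * (1 / δ) ^ 3) ^ 2 ≤ J := by
    refine le_trans ?_ hB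
    calc (Real.log m ^ 10 * (1 / δ) ^ 3) ^ 2 = Real.log m ^ 20 * (1 / δ) ^ 6 := by ring
      _ ≤ Real.log m ^ 20 * Real.log m := by
        apply mul_le_mul_of_nonneg_left _ (by positivity)
        linarith
      _ = _ := by ring
  have hx2 : 1 / (2 * (1 / δ)) = δ / 2 := by field_simp
  have h4 := h1 J (1 / δ) hW hJ1 hJ (δ / 2) (by positivity) (by rw [hx2]; linarith)
  obtain ⟨s1, _, _, s4, _⟩ := h2 J (1 / δ) hW hJ1 hJ
  have hL : Real.log ((J + 1) * m : ℕ) ≤ 2 * Real.log m := by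
    refine s4.trans ?_
    apply mul_le_mul_of_nonneg_right _ (by linarith)
    linarith
  rw [hx2] at h4
  have hφ0 : (0 : ℝ) ≤ Nat.totient m := Nat.cast_nonneg _
  have h5 : (1 / 4 - ε) * (Nat.totient m : ℝ) ≤
      (1 / 4 - δ) * (1 - (δ + 2 * (δ / 2) + δ / 2)) * (Nat.totient m : ℝ) := by
    apply mul_le_mul_of_nonneg_right _ hφ0
    nlinarith
  refine h5.trans (h4.trans ?_)
  have hcard : ((range m).filter (fun a => 2 * (δ / 2) * (J : ℝ) ≤ ff m J a)).card ≤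
      ((Icc 1 m).filter (fun c : ℕ => δ / 2 * J / Real.log m ≤
        (((Icc 1 J).filter (fun t : ℕ => (c + m * t).Prime)).card : ℝ))).card := by
    apply card_le_card_of_injOn (fun a => rp m (a + 0))
    · intro a ha
      have ha' := mem_filter.1 (mem_coe.1 ha)
      have hr := rp_mem (by omega : 0 < m) (a + 0)
      rw [mem_coe, mem_filter]
      refine ⟨mem_Icc.2 (mem_Ioc.1 hr), ?_⟩
      apply many_of_ff hm2 hr hL
      rw [ff_congr (rp_modEq m (a + 0))]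
      simpa using ha'.2
    · intro a ha a' ha' he
      have h6 := mem_range.1 (mem_filter.1 (mem_coe.1 ha)).1
      have h7 := mem_range.1 (mem_filter.1 (mem_coe.1 ha')).1
      exact rp_inj h6 h7 he
  exact_mod_cast hcard

end Pool.Agent.Y977.LW
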